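import Mathlib
import Pool.Agent.H630R2.LA.Machine

set_option autoImplicit false

/-!
# Inductive counting on an annotated tape

A nondeterministic two-way walk over the visited tape that counts the reachable states of a one-way
nondeterministic automaton with the states `0, ..., B - 1` (the method of Immerman and Szelepcsényi).
The tape is annotated by one bit in each cell; the bit of the cell `j B - s` claims that the state `s`
is reachable after `j B` letters, and these claims are verified by the walk.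
-/

namespace Pool.Agent.U593.SV

open Pool.Agent.H630R2.LA

/-- The registers of the walk. The head is at home in the cell `t + 1`, where `t` letters have been
processed: `o = t % B`, `c` is the number of the states reachable after `t` letters; `q` is the next
state to be examined for `t + 1`, `k'` the number of the states below `q` reachable after `t + 1`
letters; `p` is the next state in the enumeration of the states reachable after `t` letters, `k` the
number of the states found so far and `fd` tells whether one of them passed the test. -/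
@[ext] structure V where
  o : ℕ
  c : ℕ
  q : ℕ
  k' : ℕ
  p : ℕ
  k : ℕ
  fd : Bool

/-- The states of the walk. -/
inductive St : Type
  | p1 : St
  | rw : St
  | main (v : V) : St
  | goL (v : V) (m : ℕ) : St
  | sL (v : V) (s m : ℕ) : St
  | sR (v : V) (s m : ℕ) : St
  | goR (v : V) (x m : ℕ) : St
  | kL (v : V) (m : ℕ) : St
  | kR (v : V) (m : ℕ) : St
  | fin (b : Bool) : St

section defs

variable {A : Type} (B : ℕ) (rel : A → ℕ → ℕ → Prop) (p0 : ℕ) (facc : ℕ → Prop)

/-- The scanned cell holds a visited letter. -/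
def IsMark (σ : Sym (WS A)) : Prop := ∃ a b, σ = .sym (.mark a b)

/-- The test that is made for the state `x` in the enumeration: is there a transition from `x` to `q`
with the scanned letter, or, at the end of the input, is `x` accepting? -/
def tst (σ : Sym (WS A)) (q x : ℕ) : Prop :=
  (∃ a b, σ = .sym (.mark a b) ∧ rel a x q) ∨ (σ = .rm ∧ facc x)

/-- The registers for the next `q`. -/
def nxt (v : V) : V := ⟨v.o, v.c, v.q + 1, v.k' + (if v.fd = true then 1 else 0), 0, 0, false⟩

/-- The registers after one more letter. -/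
def advV (v : V) : V := ⟨(v.o + 1) % B, v.k', 0, 0, 0, 0, false⟩

/-- Stationary steps. -/
inductive E (σ : Sym (WS A)) : St → St → Prop
  | skip (v : V) : v.p < B → E σ (.main v) (.main { v with p := v.p + 1 })
  | yes (v : V) : v.p < B → E σ (.main v) (.goL v (v.o + 1))
  | choose (v : V) (s : ℕ) : s < B → IsMark σ → E σ (.goL v 0) (.sL v s s)
  | bit (v : V) (s : ℕ) : bitS σ = true → E σ (.sL v s 0) (.sR v s s)
  | done (v : V) (f : Bool) : v.p < B → (f = true ↔ v.fd = true ∨ tst rel facc σ v.q v.p) →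
      E σ (.goR v v.p 0) (.main { v with p := v.p + 1, k := v.k + 1, fd := f })
  | next (v : V) : v.p = B → v.k = v.c → v.q < B → v.o + 1 < B → IsMark σ →
      E σ (.main v) (.main (nxt v))
  | look (v : V) : v.p = B → v.k = v.c → v.q < B → v.o + 1 = B → IsMark σ →
      E σ (.main v) (.kL v v.q)
  | cmp (v : V) : bitS σ = v.fd → E σ (.kL v 0) (.kR v v.q)
  | back (v : V) : E σ (.kR v 0) (.main (nxt v))

/-- Moves: the direction is `true` for a move to the right. -/
inductive Mv (σ : Sym (WS A)) : St → St → Bool → Prop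
  | rwL : IsMark σ → Mv σ .rw .rw false
  | rwR : σ = .lm → Mv σ .rw (.main ⟨0, 1, 0, 0, 0, 0, false⟩) true
  | goL (v : V) (m : ℕ) : Mv σ (.goL v (m + 1)) (.goL v m) false
  | goL0 (v : V) : σ = .lm → Mv σ (.goL v 0) (.goR v p0 v.o) true
  | sL (v : V) (s m : ℕ) : Mv σ (.sL v s (m + 1)) (.sL v s m) false
  | sR (v : V) (s m : ℕ) : Mv σ (.sR v s (m + 1)) (.sR v s m) true
  | sR0 (v : V) (s : ℕ) : Mv σ (.sR v s 0) (.goR v s v.o) true
  | goR (v : V) (x m y : ℕ) : y < B → (∃ a b, σ = .sym (.mark a b) ∧ rel a x y) →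
      Mv σ (.goR v x (m + 1)) (.goR v y m) true
  | kL (v : V) (m : ℕ) : Mv σ (.kL v (m + 1)) (.kL v m) false
  | kR (v : V) (m : ℕ) : Mv σ (.kR v (m + 1)) (.kR v m) true
  | adv (v : V) : v.q = B → IsMark σ → Mv σ (.main v) (.main (advV B v)) true
  | acc (v : V) : v.p = B → v.k = v.c → σ = .rm → Mv σ (.main v) (.fin v.fd) true

/-- The annotated tape. -/
def full (w : List A) (b : ℕ → Bool) : ℕ → Sym (WS A)
  | 0 => .lm
  | i + 1 => match w[i]? with
    | some a => .sym (.mark a (b (i + 1)))
    | none => .rm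

/-- One step of the walk on the tape `τ`. -/
def R (τ : ℕ → Sym (WS A)) (x y : St × ℕ) : Prop :=
  (E B rel facc (τ x.2) x.1 y.1 ∧ y.2 = x.2) ∨
    ∃ d, Mv B rel p0 (τ x.2) x.1 y.1 d ∧ (d = true → y.2 = x.2 + 1) ∧ (d = false → y.2 + 1 = x.2)

/-- The states reachable after `t` letters. -/
def nr (w : List A) : ℕ → ℕ → Prop
  | 0, p => p = p0
  | t + 1, q => q < B ∧ ∃ p, nr w t p ∧ ∃ a, w[t]? = some a ∧ rel a p q

open Classical in
/-- The set of the states reachable after `t` letters. -/
noncomputable def Sn (w : List A) (t : ℕ) : Finset ℕ := (Finset.range B).filter (nr B rel p0 w t)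

/-- The bits for the complete blocks up to `t` are correct. -/
def Gd (w : List A) (b : ℕ → Bool) (t : ℕ) : Prop :=
  ∀ j, 1 ≤ j → j * B ≤ t → ∀ s, s < B → (b (j * B - s) = true ↔ nr B rel p0 w (j * B) s)

open Classical in
/-- The meaning of the registers. -/
structure MI (w : List A) (b : ℕ → Bool) (v : V) (t : ℕ) : Prop where
  ht : t ≤ w.length
  ho : v.o = t % B
  hc : v.c = (Sn B rel p0 w t).card
  hG : Gd B rel p0 w b t
  hq : v.q ≤ B
  hk' : v.k' = ((Finset.range v.q).filter (nr B rel p0 w (t + 1))).card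
  hb : v.o + 1 = B → ∀ q', q' < v.q → (b (t + 1 - q') = true ↔ nr B rel p0 w (t + 1) q')
  hp : v.p ≤ B
  hX : ∃ X : Finset ℕ, X ⊆ Finset.range v.p ∧ (∀ x ∈ X, nr B rel p0 w t x) ∧ X.card = v.k ∧
    (v.fd = true ↔ ∃ x ∈ X, tst rel facc (full w b (t + 1)) v.q x)

/-- The invariant of the walk. -/
def J (w : List A) (b : ℕ → Bool) : St → ℕ → Prop
  | .p1, _ => True
  | .rw, x => x ≤ w.length
  | .main v, x => ∃ t, x = t + 1 ∧ MI B rel p0 facc w b v t
  | .goL v m, x => ∃ t, MI B rel p0 facc w b v t ∧ v.p < B ∧ x + v.o = t + m ∧ m ≤ v.o + 1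
  | .sL v s m, x => ∃ t, MI B rel p0 facc w b v t ∧ v.p < B ∧ s < B ∧ x + s + v.o = t + m ∧
      v.o + 1 ≤ t ∧ m ≤ s
  | .sR v s m, x => ∃ t, MI B rel p0 facc w b v t ∧ v.p < B ∧ nr B rel p0 w (t - v.o) s ∧
      x + m + v.o = t ∧ m ≤ s
  | .goR v y m, x => ∃ t, MI B rel p0 facc w b v t ∧ v.p < B ∧ nr B rel p0 w (t - m) y ∧
      x + m = t + 1 ∧ m ≤ t ∧ m ≤ v.o
  | .kL v m, x => ∃ t, MI B rel p0 facc w b v t ∧ v.p = B ∧ v.k = v.c ∧ v.q < B ∧ v.o + 1 = B ∧
      t < w.length ∧ x + v.q = t + 1 + m ∧ m ≤ v.q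
  | .kR v m, x => ∃ t, MI B rel p0 facc w b v t ∧ v.p = B ∧ v.k = v.c ∧ v.q < B ∧ v.o + 1 = B ∧
      t < w.length ∧ b (t + 1 - v.q) = v.fd ∧ x + m = t + 1 ∧ m ≤ v.q
  | .fin f, _ => (f = true ↔ ∃ p, facc p ∧ nr B rel p0 w w.length p)

end defs

section basic

variable {A : Type} {B : ℕ} {rel : A → ℕ → ℕ → Prop} {p0 : ℕ} {facc : ℕ → Prop}
variable {w : List A} {b : ℕ → Bool}

theorem nr_lt (h0 : p0 < B) {t p : ℕ} (h : nr B rel p0 w t p) : p < B := by
  cases t with
  | zero => rw [show p = p0 from h]; exact h0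
  | succ t => exact h.1

theorem mem_Sn (h0 : p0 < B) {t p : ℕ} : p ∈ Sn B rel p0 w t ↔ nr B rel p0 w t p := by
  classical
  unfold Sn
  rw [Finset.mem_filter, Finset.mem_range]
  exact ⟨fun h => h.2, fun h => ⟨nr_lt h0 h, h⟩⟩

theorem full_mark {i : ℕ} (h1 : 1 ≤ i) (h2 : i ≤ w.length) :
    full w b i = .sym (.mark (w[i - 1]'(by omega)) (b i)) := by
  obtain ⟨i, rfl⟩ : ∃ k, i = k + 1 := ⟨i - 1, by omega⟩
  have h3 : w[i]? = some (w[i]'(by omega)) := List.getElem?_eq_getElem (by omega)
  simp only [full, h3, Nat.add_sub_cancel]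

theorem full_last : full w b (w.length + 1) = .rm := by
  simp only [full, List.getElem?_eq_none (le_refl w.length)]

theorem full_ge {i : ℕ} (h : w.length < i) : full w b i = .rm := by
  obtain ⟨i, rfl⟩ : ∃ k, i = k + 1 := ⟨i - 1, by omega⟩
  simp only [full, List.getElem?_eq_none (show w.length ≤ i by omega)]

theorem isMark_full {i : ℕ} : IsMark (full w b i) ↔ 1 ≤ i ∧ i ≤ w.length := by
  constructor
  · rintro ⟨a, c, h⟩
    rcases Nat.eq_zero_or_pos i with h0 | h0
    · subst h0
      exact absurd h (by simp [full])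
    · refine ⟨h0, ?_⟩
      by_contra hcon
      rw [full_ge (by omega)] at h
      exact absurd h (by simp)
  · rintro ⟨h1, h2⟩
    exact ⟨_, _, full_mark h1 h2⟩

theorem full_eq_lm {i : ℕ} : full w b i = .lm ↔ i = 0 := by
  constructor
  · intro h
    by_contra h0
    rcases Nat.lt_or_ge w.length i with h1 | h1
    · rw [full_ge h1] at h
      exact absurd h (by simp)
    · rw [full_mark (by omega) h1] at h
      exact absurd h (by simp)
  · rintro rfl
    rfl

theorem full_eq_rm {i : ℕ} (h : full w b i = .rm) : w.length < i := by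
  by_contra hcon
  rcases Nat.eq_zero_or_pos i with h0 | h0
  · subst h0
    exact absurd h (by simp [full])
  · rw [full_mark h0 (by omega)] at h
    exact absurd h (by simp)

theorem bitS_full {i : ℕ} (h : bitS (full w b i) = true) : 1 ≤ i ∧ i ≤ w.length ∧ b i = true := by
  rcases Nat.eq_zero_or_pos i with h0 | h0
  · subst h0
    exact absurd h (by simp [full, bitS])
  · rcases Nat.lt_or_ge w.length i with h1 | h1
    · rw [full_ge h1] at h
      exact absurd h (by simp [bitS])
    · rw [full_mark h0 h1] at h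
      exact ⟨h0, h1, h⟩

theorem bitS_mark {i : ℕ} (h1 : 1 ≤ i) (h2 : i ≤ w.length) : bitS (full w b i) = b i := by
  rw [full_mark h1 h2]
  rfl

/-- The test at home in the cell `t + 1` for `t < |w|`. -/
theorem tst_lt {t q x : ℕ} (ht : t < w.length) :
    tst rel facc (full w b (t + 1)) q x ↔ rel w[t] x q := by
  unfold tst
  rw [full_mark (by omega) (by omega)]
  simp only [Nat.add_sub_cancel]
  constructor
  · rintro (⟨a, c, h1, h2⟩ | ⟨h1, _⟩)
    · simp only [Sym.sym.injEq, WS.mark.injEq] at h1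
      rw [h1.1]
      exact h2
    · exact absurd h1 (by simp)
  · intro h
    exact Or.inl ⟨_, _, rfl, h⟩

/-- The test at the end of the input. -/
theorem tst_end {q x : ℕ} : tst rel facc (full w b (w.length + 1)) q x ↔ facc x := by
  unfold tst
  rw [full_last]
  constructor
  · rintro (⟨a, c, h1, h2⟩ | ⟨_, h⟩)
    · exact absurd h1 (by simp)
    · exact h
  · intro h
    exact Or.inr ⟨rfl, h⟩

theorem nr_succ {t q : ℕ} (ht : t < w.length) (hq : q < B) :
    nr B rel p0 w (t + 1) q ↔ ∃ x, nr B rel p0 w t x ∧ rel w[t] x q := by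
  have h3 : w[t]? = some w[t] := List.getElem?_eq_getElem ht
  simp only [nr, h3, Option.some.injEq, exists_eq_left', hq, true_and]

open Classical in
/-- When the enumeration is complete it has found all the reachable states. -/
theorem MI.all (h0 : p0 < B) {v : V} {t : ℕ} (h : MI B rel p0 facc w b v t)
    (hk : v.k = v.c) :
    v.fd = true ↔ ∃ x, nr B rel p0 w t x ∧ tst rel facc (full w b (t + 1)) v.q x := by
  obtain ⟨X, h1, h2, h3, h4⟩ := h.hX
  have h5 : X = Sn B rel p0 w t := by
    apply Finset.eq_of_subset_of_card_le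
    · intro x hx
      exact (mem_Sn h0).2 (h2 x hx)
    · rw [h3, hk, h.hc]
  rw [h4, h5]
  constructor
  · rintro ⟨x, hx, hx'⟩
    exact ⟨x, (mem_Sn h0).1 hx, hx'⟩
  · rintro ⟨x, hx, hx'⟩
    exact ⟨x, (mem_Sn h0).2 hx, hx'⟩

theorem MI.found (h0 : p0 < B) {v : V} {t : ℕ} (h : MI B rel p0 facc w b v t)
    (hk : v.k = v.c) (hq : v.q < B) (ht : t < w.length) :
    v.fd = true ↔ nr B rel p0 w (t + 1) v.q := by
  rw [h.all h0 hk, nr_succ ht hq]
  simp only [tst_lt ht]

open Classical in
theorem MI.nxt (h0 : p0 < B) {v : V} {t : ℕ} (h : MI B rel p0 facc w b v t)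
    (hk : v.k = v.c) (hq : v.q < B) (ht : t < w.length)
    (hbit : v.o + 1 = B → b (t + 1 - v.q) = v.fd) : MI B rel p0 facc w b (nxt v) t := by
  have hf := h.found h0 hk hq ht
  refine ⟨h.ht, h.ho, h.hc, h.hG, hq, ?_, ?_, Nat.zero_le _, ?_⟩
  · show v.k' + (if v.fd = true then 1 else 0) = _
    show _ = ((Finset.range (v.q + 1)).filter (nr B rel p0 w (t + 1))).card
    rw [Finset.range_add_one, Finset.filter_insert, h.hk']
    by_cases h1 : nr B rel p0 w (t + 1) v.q
    · rw [if_pos h1, if_pos (hf.2 h1), Finset.card_insert_of_notMem (by simp)]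
    · rw [if_neg h1, if_neg (fun h2 => h1 (hf.1 h2))]
      rfl
  · intro ho q' hq'
    have hq'' : q' < v.q + 1 := hq'
    rcases Nat.lt_or_ge q' v.q with h1 | h1
    · exact h.hb ho q' h1
    · have h2 : q' = v.q := by omega
      subst h2
      rw [hbit ho, hf]
  · exact ⟨∅, Finset.empty_subset _, by simp, rfl, by simp [SV.nxt]⟩

open Classical in
theorem MI.adv (hB : 0 < B) {v : V} {t : ℕ} (h : MI B rel p0 facc w b v t) (hq : v.q = B)
    (ht : t < w.length) : MI B rel p0 facc w b (advV B v) (t + 1) := by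
  refine ⟨ht, ?_, ?_, ?_, Nat.zero_le _, ?_, ?_, Nat.zero_le _, ?_⟩
  · show (v.o + 1) % B = (t + 1) % B
    rw [h.ho, Nat.mod_add_mod]
  · show v.k' = _
    rw [h.hk', hq]
    rfl
  · intro j hj hjt s hs
    rcases Nat.lt_or_ge t (j * B) with h1 | h1
    · have h2 : j * B = t + 1 := by omega
      have h3 : v.o + 1 = B := by
        rw [h.ho]
        have h4 : (t + 1) % B = 0 := by rw [← h2, Nat.mul_mod_left]
        have h5 : t % B < B := Nat.mod_lt _ hB
        have h6 : (t % B + 1) % B = 0 := by rw [Nat.mod_add_mod]; exact h4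
        rcases Nat.lt_or_ge (t % B + 1) B with h7 | h7
        · rw [Nat.mod_eq_of_lt h7] at h6
          omega
        · omega
      rw [h2]
      exact h.hb h3 s (by omega)
    · exact h.hG j hj h1 s hs
  · show 0 = ((Finset.range 0).filter _).card
    simp
  · intro _ q' hq'
    exact absurd hq' (Nat.not_lt_zero _)
  · exact ⟨∅, Finset.empty_subset _, by simp, rfl, by simp [advV]⟩

end basic

end Pool.Agent.U593.SV
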