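import Mathlib
import Pool.Agent.U593.SV.Walk

set_option autoImplicit false

/-! The walk is complete: with the right annotation it reaches the right answer. -/

namespace Pool.Agent.U593.SV

open Pool.Agent.H630R2.LA Relation

variable {A : Type} {B : ℕ} {rel : A → ℕ → ℕ → Prop} {p0 : ℕ} {facc : ℕ → Prop}
variable {w : List A} {b : ℕ → Bool}

open Classical in
/-- The right annotation. -/
noncomputable def bOK (B : ℕ) (rel : A → ℕ → ℕ → Prop) (p0 : ℕ) (w : List A) (i : ℕ) : Bool :=
  decide (nr B rel p0 w ((i + (B - 1)) / B * B) ((i + (B - 1)) / B * B - i))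

theorem bOK_iff {j s : ℕ} (hj : 1 ≤ j) (hs : s < B) :
    bOK B rel p0 w (j * B - s) = true ↔ nr B rel p0 w (j * B) s := by
  have h1 : B ≤ j * B := Nat.le_mul_of_pos_left B hj
  have h2 : (j * B - s + (B - 1)) / B = j := by
    have h3 : j * B - s + (B - 1) = (B - 1 - s) + B * j := by
      have := Nat.mul_comm j B
      omega
    rw [h3, Nat.add_mul_div_left _ _ (by omega), Nat.div_eq_of_lt (by omega), Nat.zero_add]
  have h4 : j * B - (j * B - s) = s := by omega
  unfold bOK
  rw [h2, h4]
  simp

/-- `b` is the right annotation. -/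
def Right (B : ℕ) (rel : A → ℕ → ℕ → Prop) (p0 : ℕ) (w : List A) (b : ℕ → Bool) : Prop :=
  ∀ j s, 1 ≤ j → s < B → (b (j * B - s) = true ↔ nr B rel p0 w (j * B) s)

/-- Paths of the automaton. -/
def pt (B : ℕ) (rel : A → ℕ → ℕ → Prop) (w : List A) : ℕ → ℕ → ℕ → ℕ → Prop
  | _, y, 0, p => y = p
  | u, y, m + 1, p => ∃ z, z < B ∧ (∃ a, w[u]? = some a ∧ rel a y z) ∧ pt B rel w (u + 1) z m p

theorem pt_snoc (m : ℕ) : ∀ (u y x p : ℕ), pt B rel w u y m x → p < B →
    (∃ a, w[u + m]? = some a ∧ rel a x p) → pt B rel w u y (m + 1) p := by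
  induction m with
  | zero =>
    intro u y x p h hp h1
    have h' : y = x := h
    subst h'
    exact ⟨p, hp, h1, rfl⟩
  | succ m ih =>
    intro u y x p h hp h1
    obtain ⟨z, hz, h2, h3⟩ := h
    refine ⟨z, hz, h2, ih _ _ _ _ h3 hp ?_⟩
    have : u + (m + 1) = u + 1 + m := by omega
    rw [← this]
    exact h1

theorem exists_pt (m : ℕ) : ∀ (u p : ℕ), nr B rel p0 w (u + m) p →
    ∃ y, nr B rel p0 w u y ∧ pt B rel w u y m p := by
  induction m with
  | zero =>
    intro u p h
    exact ⟨p, h, rfl⟩
  | succ m ih =>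
    intro u p h
    obtain ⟨hp, x, hx, h1⟩ := h
    obtain ⟨y, hy, h2⟩ := ih u x hx
    exact ⟨y, hy, pt_snoc m _ _ _ _ h2 hp h1⟩

theorem stE {s s' : St} {x : ℕ} (h : E B rel facc (full w b x) s s') : (R B rel p0 facc (full w b)) (s, x) (s', x) :=
  Or.inl ⟨h, rfl⟩

theorem stR {s s' : St} {x : ℕ} (h : Mv B rel p0 (full w b x) s s' true) :
    (R B rel p0 facc (full w b)) (s, x) (s', x + 1) :=
  Or.inr ⟨true, h, fun _ => rfl, fun h => absurd h (by simp)⟩

theorem stL {s s' : St} {x : ℕ} (h : Mv B rel p0 (full w b (x + 1)) s s' false) :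
    (R B rel p0 facc (full w b)) (s, x + 1) (s', x) :=
  Or.inr ⟨false, h, fun h => absurd h (by simp), fun _ => rfl⟩

theorem run_goL (v : V) (m x : ℕ) : ReflTransGen (R B rel p0 facc (full w b)) (.goL v m, x + m) (.goL v 0, x) := by
  induction m with
  | zero => exact ReflTransGen.refl
  | succ m ih => exact ReflTransGen.head (stL (Mv.goL v m)) ih

theorem run_sL (v : V) (s m x : ℕ) : ReflTransGen (R B rel p0 facc (full w b)) (.sL v s m, x + m) (.sL v s 0, x) := by
  induction m with
  | zero => exact ReflTransGen.refl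
  | succ m ih => exact ReflTransGen.head (stL (Mv.sL v s m)) ih

theorem run_kL (v : V) (m x : ℕ) : ReflTransGen (R B rel p0 facc (full w b)) (.kL v m, x + m) (.kL v 0, x) := by
  induction m with
  | zero => exact ReflTransGen.refl
  | succ m ih => exact ReflTransGen.head (stL (Mv.kL v m)) ih

theorem run_sR (v : V) (s m : ℕ) : ∀ x, ReflTransGen (R B rel p0 facc (full w b)) (.sR v s m, x) (.sR v s 0, x + m) := by
  induction m with
  | zero => intro x; exact ReflTransGen.refl
  | succ m ih =>
    intro x
    have h := ih (x + 1)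
    have h1 : x + 1 + m = x + (m + 1) := by omega
    rw [h1] at h
    exact ReflTransGen.head (stR (Mv.sR v s m)) h

theorem run_kR (v : V) (m : ℕ) : ∀ x, ReflTransGen (R B rel p0 facc (full w b)) (.kR v m, x) (.kR v 0, x + m) := by
  induction m with
  | zero => intro x; exact ReflTransGen.refl
  | succ m ih =>
    intro x
    have h := ih (x + 1)
    have h1 : x + 1 + m = x + (m + 1) := by omega
    rw [h1] at h
    exact ReflTransGen.head (stR (Mv.kR v m)) h

theorem run_goR (v : V) (m : ℕ) : ∀ (u y p : ℕ), pt B rel w u y m p → u + m ≤ w.length →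
    ReflTransGen (R B rel p0 facc (full w b)) (.goR v y m, u + 1) (.goR v p 0, u + m + 1) := by
  induction m with
  | zero =>
    intro u y p h _
    have h' : y = p := h
    subst h'
    exact ReflTransGen.refl
  | succ m ih =>
    intro u y p h hu
    obtain ⟨z, hz, ⟨a, ha, hr⟩, h1⟩ := h
    have h2 := ih (u + 1) z p h1 (by omega)
    have h3 : u + 1 + m + 1 = u + (m + 1) + 1 := by omega
    rw [h3] at h2
    refine ReflTransGen.head (stR (Mv.goR v y m z hz ⟨a, b (u + 1), ?_, hr⟩)) h2
    simp only [full, ha]

/-- The walk verifies that `v.p` is reachable. -/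
theorem run_path (h0 : p0 < B) (hb : Right B rel p0 w b) {v : V} {t : ℕ}
    (ht : t ≤ w.length) (ho : v.o = t % B) (hn : nr B rel p0 w t v.p) :
    ReflTransGen (R B rel p0 facc (full w b)) (.goL v (v.o + 1), t + 1) (.goR v v.p 0, t + 1) := by
  have h1 := Nat.div_add_mod t B
  have h2 : B * (t / B) = t / B * B := Nat.mul_comm _ _
  have h3 : t + 1 = t / B * B + (v.o + 1) := by omega
  have h4 : t = t / B * B + v.o := by omega
  have h5 : ReflTransGen (R B rel p0 facc (full w b)) (.goL v (v.o + 1), t + 1) (.goL v 0, t / B * B) := by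
    rw [h3]
    exact run_goL v (v.o + 1) _
  refine h5.trans ?_
  rw [h4] at hn
  obtain ⟨y, hy, hpt⟩ := exists_pt v.o (t / B * B) v.p hn
  have h6 := run_goR (b := b) (p0 := p0) (facc := facc) v v.o _ _ _ hpt (by omega)
  have h7 : t / B * B + v.o + 1 = t + 1 := by omega
  rw [h7] at h6
  rcases Nat.eq_zero_or_pos (t / B) with hj | hj
  · rw [hj, Nat.zero_mul] at hy h6 ⊢
    have hy' : y = p0 := hy
    subst hy'
    exact ReflTransGen.head (stR (Mv.goL0 v rfl)) h6
  · have hyB : y < B := nr_lt h0 hy
    have h8 : B ≤ t / B * B := Nat.le_mul_of_pos_left B hj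
    have hbit := (hb (t / B) y hj hyB).2 hy
    generalize t / B * B = x at *
    have hmark : IsMark (full w b x) := isMark_full.2 ⟨by omega, by omega⟩
    refine ReflTransGen.head (stE (E.choose v y hyB hmark)) ?_
    have h9 := run_sL (B := B) (rel := rel) (p0 := p0) (facc := facc) (w := w) (b := b) v y y (x - y)
    have h10 : x - y + y = x := by omega
    rw [h10] at h9
    refine h9.trans (ReflTransGen.head (stE (E.bit v y ?_)) ?_)
    · rw [bitS_mark (by omega) (by omega)]
      exact hbit
    · have h11 := run_sR (B := B) (rel := rel) (p0 := p0) (facc := facc) (w := w) (b := b) v y y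
        (x - y)
      rw [h10] at h11
      exact h11.trans (ReflTransGen.head (stR (Mv.sR0 v y)) h6)

open Classical in
/-- The number of the reachable states below `i`. -/
noncomputable def cn (B : ℕ) (rel : A → ℕ → ℕ → Prop) (p0 : ℕ) (w : List A) (t i : ℕ) : ℕ :=
  ((Finset.range i).filter (nr B rel p0 w t)).card

open Classical in
theorem cn_succ (t i : ℕ) : cn B rel p0 w t (i + 1) =
    cn B rel p0 w t i + (if nr B rel p0 w t i then 1 else 0) := by
  unfold cn
  rw [Finset.range_add_one, Finset.filter_insert]
  by_cases h : nr B rel p0 w t i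
  · rw [if_pos h, if_pos h, Finset.card_insert_of_notMem (by simp)]
  · rw [if_neg h, if_neg h]
    rfl

open Classical in
/-- The flag after the first `i` states. -/
noncomputable def fg (B : ℕ) (rel : A → ℕ → ℕ → Prop) (p0 : ℕ) (facc : ℕ → Prop) (w : List A)
    (b : ℕ → Bool) (t q i : ℕ) : Bool :=
  decide (∃ x, x < i ∧ nr B rel p0 w t x ∧ tst rel facc (full w b (t + 1)) q x)

open Classical in
/-- The enumeration of the reachable states. -/
theorem run_enum (hB : 0 < B) (h0 : p0 < B) (hb : Right B rel p0 w b) {t : ℕ}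
    (ht : t ≤ w.length) (c q k' : ℕ) : ∀ i, i ≤ B →
    ReflTransGen (R B rel p0 facc (full w b)) (.main ⟨t % B, c, q, k', 0, 0, false⟩, t + 1)
      (.main ⟨t % B, c, q, k', i, cn B rel p0 w t i, fg B rel p0 facc w b t q i⟩, t + 1) := by
  intro i
  induction i with
  | zero =>
    intro _
    have h1 : cn B rel p0 w t 0 = 0 := by simp [cn]
    have h2 : fg B rel p0 facc w b t q 0 = false := by simp [fg]
    rw [h1, h2]
  | succ i ih =>
    intro hi
    refine (ih (by omega)).trans ?_
    set v : V := ⟨t % B, c, q, k', i, cn B rel p0 w t i, fg B rel p0 facc w b t q i⟩ with hv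
    by_cases hn : nr B rel p0 w t i
    · refine ReflTransGen.head (stE (E.yes v (by show i < B; omega))) ?_
      refine (run_path (facc := facc) h0 hb ht (v := v) rfl hn).tail (stE ?_)
      have h1 := E.done (B := B) (rel := rel) (facc := facc) (σ := full w b (t + 1)) v
        (fg B rel p0 facc w b t q (i + 1)) (by show i < B; omega) ?_
      · have h2 : cn B rel p0 w t (i + 1) = cn B rel p0 w t i + 1 := by
          rw [cn_succ, if_pos hn]
        rw [h2]
        exact h1
      · show fg B rel p0 facc w b t q (i + 1) = true ↔ fg B rel p0 facc w b t q i = true ∨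
          tst rel facc (full w b (t + 1)) q i
        simp only [fg, decide_eq_true_eq]
        constructor
        · rintro ⟨x, hx, hx1, hx2⟩
          rcases Nat.lt_or_ge x i with h | h
          · exact Or.inl ⟨x, h, hx1, hx2⟩
          · have : x = i := by omega
            subst this
            exact Or.inr hx2
        · rintro (⟨x, hx, hx1, hx2⟩ | h)
          · exact ⟨x, by omega, hx1, hx2⟩
          · exact ⟨i, by omega, hn, h⟩
    · refine ReflTransGen.single (stE ?_)
      have h1 := E.skip (B := B) (rel := rel) (facc := facc) (σ := full w b (t + 1)) v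
        (by show i < B; omega)
      have h2 : cn B rel p0 w t (i + 1) = cn B rel p0 w t i := by
        rw [cn_succ, if_neg hn]
        rfl
      have h3 : fg B rel p0 facc w b t q (i + 1) = fg B rel p0 facc w b t q i := by
        rw [Bool.eq_iff_iff]
        simp only [fg, decide_eq_true_eq]
        constructor
        · rintro ⟨x, hx, hx1, hx2⟩
          refine ⟨x, ?_, hx1, hx2⟩
          by_contra hcon
          have : x = i := by omega
          subst this
          exact hn hx1
        · rintro ⟨x, hx, hx1, hx2⟩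
          exact ⟨x, by omega, hx1, hx2⟩
      rw [h2, h3]
      exact h1

theorem fg_lt (h0 : p0 < B) {t q : ℕ} (ht : t < w.length) (hq : q < B) :
    fg B rel p0 facc w b t q B = true ↔ nr B rel p0 w (t + 1) q := by
  classical
  rw [nr_succ ht hq]
  unfold fg
  rw [decide_eq_true_eq]
  simp only [tst_lt ht]
  constructor
  · rintro ⟨x, _, h1, h2⟩
    exact ⟨x, h1, h2⟩
  · rintro ⟨x, h1, h2⟩
    exact ⟨x, nr_lt h0 h1, h1, h2⟩

open Classical in
/-- The computation of the number of the states reachable after `t + 1` letters. -/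
theorem run_count (hB : 0 < B) (h0 : p0 < B) (hb : Right B rel p0 w b) {t : ℕ}
    (ht : t < w.length) : ∀ i, i ≤ B →
    ReflTransGen (R B rel p0 facc (full w b)) (.main ⟨t % B, cn B rel p0 w t B, 0, 0, 0, 0, false⟩, t + 1)
      (.main ⟨t % B, cn B rel p0 w t B, i, cn B rel p0 w (t + 1) i, 0, 0, false⟩, t + 1) := by
  intro i
  induction i with
  | zero =>
    intro _
    have h1 : cn B rel p0 w (t + 1) 0 = 0 := by simp [cn]
    rw [h1]
  | succ i ih =>
    intro hi
    refine (ih (by omega)).trans ((run_enum (facc := facc) hB h0 hb (by omega) _ i _ B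
      le_rfl).trans ?_)
    set v : V := ⟨t % B, cn B rel p0 w t B, i, cn B rel p0 w (t + 1) i, B, cn B rel p0 w t B,
      fg B rel p0 facc w b t i B⟩ with hv
    have hf := fg_lt (rel := rel) (facc := facc) (b := b) h0 ht (show i < B by omega)
    have hnx : nxt v = ⟨t % B, cn B rel p0 w t B, i + 1, cn B rel p0 w (t + 1) (i + 1), 0, 0,
        false⟩ := by
      unfold nxt
      simp only [hv, cn_succ]
      by_cases hn : nr B rel p0 w (t + 1) i
      · rw [if_pos hn, if_pos (hf.2 hn)]
      · rw [if_neg hn, if_neg (fun h => hn (hf.1 h))]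
    have hmark : IsMark (full w b (t + 1)) := isMark_full.2 ⟨by omega, by omega⟩
    have hmod : t % B < B := Nat.mod_lt _ hB
    rw [← hnx]
    rcases Nat.lt_or_ge (t % B + 1) B with h1 | h1
    · exact ReflTransGen.single (stE (E.next v rfl rfl (by show i < B; omega) h1 hmark))
    · have h2 : t % B + 1 = B := by omega
      refine ReflTransGen.head (stE (E.look v rfl rfl (by show i < B; omega) h2 hmark)) ?_
      have hle : t % B ≤ t := Nat.mod_le _ _
      have h3 := run_kL (B := B) (rel := rel) (p0 := p0) (facc := facc) (w := w) (b := b) v i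
        (t + 1 - i)
      have h4 : t + 1 - i + i = t + 1 := by omega
      rw [h4] at h3
      refine ReflTransGen.trans h3 (ReflTransGen.head (stE (E.cmp v ?_)) ?_)
      · rw [bitS_mark (by omega) (by omega)]
        have h5 : t + 1 = (t / B + 1) * B := by
          have h6 := Nat.div_add_mod t B
          have h7 : (t / B + 1) * B = B * (t / B) + B := by ring
          omega
        have h8 := hb (t / B + 1) i (Nat.le_add_left 1 _) (by omega)
        rw [← h5] at h8
        show b (t + 1 - i) = fg B rel p0 facc w b t i B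
        rw [Bool.eq_iff_iff, h8, hf]
      · have h5 := run_kR (B := B) (rel := rel) (p0 := p0) (facc := facc) (w := w) (b := b) v i
          (t + 1 - i)
        rw [h4] at h5
        exact h5.tail (stE (E.back v))

/-- All letters are processed. -/
theorem run_all (hB : 0 < B) (h0 : p0 < B) (hb : Right B rel p0 w b) : ∀ t, t ≤ w.length →
    ReflTransGen (R B rel p0 facc (full w b)) (.main ⟨0, 1, 0, 0, 0, 0, false⟩, 1)
      (.main ⟨t % B, cn B rel p0 w t B, 0, 0, 0, 0, false⟩, t + 1) := by
  intro t
  induction t with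
  | zero =>
    intro _
    have h1 : cn B rel p0 w 0 B = 1 := by
      classical
      have h2 : (Finset.range B).filter (nr B rel p0 w 0) = {p0} := by
        ext z
        rw [Finset.mem_filter, Finset.mem_range, Finset.mem_singleton]
        constructor
        · rintro ⟨_, h⟩
          exact h
        · rintro rfl
          exact ⟨h0, rfl⟩
      unfold cn
      rw [h2, Finset.card_singleton]
    rw [h1, Nat.zero_mod]
  | succ t ih =>
    intro ht
    refine (ih (by omega)).trans ((run_count (facc := facc) hB h0 hb (by omega) B le_rfl).tail ?_)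
    have hmark : IsMark (full w b (t + 1)) := isMark_full.2 ⟨by omega, by omega⟩
    have h1 := Mv.adv (B := B) (rel := rel) (p0 := p0) (σ := full w b (t + 1))
      ⟨t % B, cn B rel p0 w t B, B, cn B rel p0 w (t + 1) B, 0, 0, false⟩ rfl hmark
    have h2 : advV B ⟨t % B, cn B rel p0 w t B, B, cn B rel p0 w (t + 1) B, 0, 0, false⟩ =
        ⟨(t + 1) % B, cn B rel p0 w (t + 1) B, 0, 0, 0, 0, false⟩ := by
      unfold advV
      simp only [Nat.mod_add_mod]
    rw [h2] at h1
    exact stR h1

theorem run_rw (m : ℕ) (hm : m ≤ w.length) : ReflTransGen (R B rel p0 facc (full w b)) (.rw, m) (.rw, 0) := by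
  induction m with
  | zero => exact ReflTransGen.refl
  | succ m ih =>
    exact ReflTransGen.head (stL (Mv.rwL (isMark_full.2 ⟨by omega, hm⟩))) (ih (by omega))

open Classical in
/-- **Completeness.** -/
theorem run_final (hB : 0 < B) (h0 : p0 < B) (hb : Right B rel p0 w b) :
    ReflTransGen (R B rel p0 facc (full w b)) (.rw, w.length)
      (.fin (decide (∃ p, facc p ∧ nr B rel p0 w w.length p)), w.length + 2) := by
  refine (run_rw w.length le_rfl).trans (ReflTransGen.head (stR (Mv.rwR rfl)) ?_)
  refine (run_all hB h0 hb w.length le_rfl).trans ((run_enum (facc := facc) hB h0 hb le_rfl _ 0 _ B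
    le_rfl).tail ?_)
  have h1 := Mv.acc (B := B) (rel := rel) (p0 := p0) (σ := full w b (w.length + 1))
    ⟨w.length % B, cn B rel p0 w w.length B, 0, 0, B, cn B rel p0 w w.length B,
      fg B rel p0 facc w b w.length 0 B⟩ rfl rfl full_last
  have h2 : fg B rel p0 facc w b w.length 0 B =
      decide (∃ p, facc p ∧ nr B rel p0 w w.length p) := by
    rw [Bool.eq_iff_iff]
    simp only [fg, decide_eq_true_eq, tst_end]
    constructor
    · rintro ⟨x, _, h1, h2⟩
      exact ⟨x, h2, h1⟩
    · rintro ⟨x, h1, h2⟩
      exact ⟨x, nr_lt h0 h2, h2, h1⟩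
  rw [← h2]
  exact stR h1

end Pool.Agent.U593.SV
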