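import Mathlib
import Pool.Agent.U593.SV.Walk

set_option autoImplicit false

/-! The walk is sound: its invariant is preserved. -/

namespace Pool.Agent.U593.SV

open Pool.Agent.H630R2.LA

variable {A : Type} {B : ℕ} {rel : A → ℕ → ℕ → Prop} {p0 : ℕ} {facc : ℕ → Prop}
variable {w : List A} {b : ℕ → Bool}

open Classical in
theorem J_E (h0 : p0 < B) {x : ℕ} {s s' : St} (hE : E B rel facc (full w b x) s s')
    (hJ : J B rel p0 facc w b s x) : J B rel p0 facc w b s' x := by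
  cases hE with
  | skip v hv =>
    obtain ⟨t, hx, h⟩ := hJ
    refine ⟨t, hx, h.ht, h.ho, h.hc, h.hG, h.hq, h.hk', h.hb, hv, ?_⟩
    obtain ⟨X, h1, h2, h3, h4⟩ := h.hX
    refine ⟨X, fun y hy => ?_, h2, h3, h4⟩
    have := Finset.mem_range.1 (h1 hy)
    exact Finset.mem_range.2 (Nat.lt_succ_of_lt this)
  | yes v hv =>
    obtain ⟨t, hx, h⟩ := hJ
    exact ⟨t, h, hv, by omega, le_rfl⟩
  | choose v s hs hm =>
    obtain ⟨t, h, hv, hx, _⟩ := hJ
    have h1 := (isMark_full.1 hm).1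
    exact ⟨t, h, hv, hs, by omega, by omega, le_rfl⟩
  | bit v s hb =>
    obtain ⟨t, h, hv, hs, hx, ht, _⟩ := hJ
    refine ⟨t, h, hv, ?_, by omega, le_rfl⟩
    obtain ⟨h1, h2, h3⟩ := bitS_full hb
    have h4 : v.o = t % B := h.ho
    have h5 : t - v.o = (t / B) * B := by
      have := Nat.div_add_mod t B
      have h6 : B * (t / B) = t / B * B := Nat.mul_comm _ _
      omega
    have h6 : 1 ≤ t / B := by
      rcases Nat.eq_zero_or_pos (t / B) with h7 | h7
      · rw [h7, Nat.zero_mul] at h5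
        omega
      · exact h7
    have h7 : t / B * B ≤ t := Nat.div_mul_le_self t B
    have h8 := h.hG (t / B) h6 h7 s hs
    rw [h5, ← h8, ← h5]
    have h9 : t - v.o - s = x := by omega
    rw [h9]
    exact h3
  | done v f hv hf =>
    obtain ⟨t, h, _, hn, hx, _, _⟩ := hJ
    have hx' : x = t + 1 := by omega
    subst hx'
    refine ⟨t, rfl, h.ht, h.ho, h.hc, h.hG, h.hq, h.hk', h.hb, hv, ?_⟩
    obtain ⟨X, h1, h2, h3, h4⟩ := h.hX
    have hnot : v.p ∉ X := fun hy => by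
      have := Finset.mem_range.1 (h1 hy)
      omega
    refine ⟨insert v.p X, ?_, ?_, ?_, ?_⟩
    · intro y hy
      rw [Finset.mem_insert] at hy
      show y ∈ Finset.range (v.p + 1)
      rw [Finset.mem_range]
      rcases hy with rfl | hy
      · omega
      · have := Finset.mem_range.1 (h1 hy)
        omega
    · intro y hy
      rw [Finset.mem_insert] at hy
      rcases hy with rfl | hy
      · exact hn
      · exact h2 y hy
    · rw [Finset.card_insert_of_notMem hnot, h3]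
    · show f = true ↔ _
      rw [hf, h4]
      constructor
      · rintro (⟨y, hy, hy'⟩ | h5)
        · exact ⟨y, Finset.mem_insert_of_mem hy, hy'⟩
        · exact ⟨v.p, Finset.mem_insert_self _ _, h5⟩
      · rintro ⟨y, hy, hy'⟩
        rcases Finset.mem_insert.1 hy with rfl | hy
        · exact Or.inr hy'
        · exact Or.inl ⟨y, hy, hy'⟩
  | next v hp hk hq ho hm =>
    obtain ⟨t, hx, h⟩ := hJ
    subst hx
    have ht := (isMark_full.1 hm).2
    exact ⟨t, rfl, h.nxt h0 hk hq (by omega) (fun h1 => by omega)⟩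
  | look v hp hk hq ho hm =>
    obtain ⟨t, hx, h⟩ := hJ
    subst hx
    have ht := (isMark_full.1 hm).2
    exact ⟨t, h, hp, hk, hq, ho, by omega, rfl, le_rfl⟩
  | cmp v hb =>
    obtain ⟨t, h, hp, hk, hq, ho, ht, hx, _⟩ := hJ
    refine ⟨t, h, hp, hk, hq, ho, ht, ?_, by omega, le_rfl⟩
    have h1 : t % B ≤ t := Nat.mod_le t B
    have h2 := h.ho
    have h3 : t + 1 - v.q = x := by omega
    rw [h3, ← hb, bitS_mark (by omega) (by omega)]
  | back v =>
    obtain ⟨t, h, hp, hk, hq, ho, ht, hb, hx, _⟩ := hJ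
    exact ⟨t, by omega, h.nxt h0 hk hq ht (fun _ => hb)⟩

theorem J_Mv (h0 : p0 < B) {x y : ℕ} {s s' : St} {d : Bool}
    (hM : Mv B rel p0 (full w b x) s s' d) (hr : d = true → y = x + 1)
    (hl : d = false → y + 1 = x)
    (hJ : J B rel p0 facc w b s x) : J B rel p0 facc w b s' y := by
  cases hM with
  | rwL _ =>
    have h1 := hl rfl
    have h2 : x ≤ w.length := hJ
    show y ≤ w.length
    omega
  | rwR h =>
    have h1 := full_eq_lm.1 h
    have h2 := hr rfl
    refine ⟨0, by omega, Nat.zero_le _, ?_, ?_, ?_, Nat.zero_le _, ?_, ?_, Nat.zero_le _, ?_⟩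
    · show 0 = 0 % B
      simp
    · show 1 = (Sn B rel p0 w 0).card
      have h3 : Sn B rel p0 w 0 = {p0} := by
        ext z
        rw [mem_Sn h0, Finset.mem_singleton]
        rfl
      rw [h3, Finset.card_singleton]
    · intro j hj hjt z hz
      have : 1 * B ≤ j * B := Nat.mul_le_mul_right _ hj
      omega
    · simp
    · intro _ q' hq'
      exact absurd hq' (Nat.not_lt_zero _)
    · exact ⟨∅, Finset.empty_subset _, by simp, rfl, by simp⟩
  | goL v m =>
    obtain ⟨t, h, hv, h1, _⟩ := hJ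
    have h2 := hl rfl
    exact ⟨t, h, hv, by omega, by omega⟩
  | goL0 v h =>
    obtain ⟨t, h1, hv, h2, _⟩ := hJ
    have h3 := full_eq_lm.1 h
    have h4 := hr rfl
    refine ⟨t, h1, hv, ?_, by omega, by omega, le_rfl⟩
    have h5 : t - v.o = 0 := by omega
    rw [h5]
    rfl
  | sL v s m =>
    obtain ⟨t, h, hv, hs, h1, h2, _⟩ := hJ
    have h3 := hl rfl
    exact ⟨t, h, hv, hs, by omega, h2, by omega⟩
  | sR v s m =>
    obtain ⟨t, h, hv, hs, h1, _⟩ := hJ
    have h3 := hr rfl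
    exact ⟨t, h, hv, hs, by omega, by omega⟩
  | sR0 v s =>
    obtain ⟨t, h, hv, hs, h1, _⟩ := hJ
    have h3 := hr rfl
    exact ⟨t, h, hv, hs, by omega, by omega, le_rfl⟩
  | goR v z m z' hz' h =>
    obtain ⟨t, h1, hv, hs, h2, h3, _⟩ := hJ
    have h4 := hr rfl
    obtain ⟨a, c, h5, h6⟩ := h
    have hm : IsMark (full w b x) := ⟨a, c, h5⟩
    obtain ⟨h7, h8⟩ := isMark_full.1 hm
    rw [full_mark h7 h8] at h5
    simp only [Sym.sym.injEq, WS.mark.injEq] at h5
    refine ⟨t, h1, hv, ?_, by omega, by omega, by omega⟩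
    have h9 : t - m = (t - (m + 1)) + 1 := by omega
    rw [h9, nr_succ (by omega) hz']
    refine ⟨z, hs, ?_⟩
    have h10 : w[x - 1]'(by omega) = w[t - (m + 1)]'(by omega) := by
      congr 1
      omega
    rw [← h10, h5.1]
    exact h6
  | kL v m =>
    obtain ⟨t, h, hp, hk, hq, ho, ht, h1, _⟩ := hJ
    have h2 := hl rfl
    exact ⟨t, h, hp, hk, hq, ho, ht, by omega, by omega⟩
  | kR v m =>
    obtain ⟨t, h, hp, hk, hq, ho, ht, hb, h1, _⟩ := hJ
    have h2 := hr rfl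
    exact ⟨t, h, hp, hk, hq, ho, ht, hb, by omega, by omega⟩
  | adv v hq hm =>
    obtain ⟨t, h1, h⟩ := hJ
    subst h1
    have ht := (isMark_full.1 hm).2
    exact ⟨t + 1, hr rfl, h.adv (by omega) hq (by omega)⟩
  | acc v hp hk h =>
    obtain ⟨t, h1, h2⟩ := hJ
    have h3 := full_eq_rm h
    have h4 := h2.ht
    have h5 : t = w.length := by omega
    subst h5
    show v.fd = true ↔ _
    rw [h2.all h0 hk]
    constructor
    · rintro ⟨z, hz, hz'⟩
      exact ⟨z, tst_end.1 hz', hz⟩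
    · rintro ⟨z, hz, hz'⟩
      exact ⟨z, hz', tst_end.2 hz⟩

open Classical in
/-- The registers are bounded by `B`. -/
theorem MI.bd {v : V} {t : ℕ} (hB : 0 < B) (h : MI B rel p0 facc w b v t) :
    v.o < B ∧ v.c ≤ B ∧ v.q ≤ B ∧ v.k' ≤ B ∧ v.p ≤ B ∧ v.k ≤ B := by
  refine ⟨?_, ?_, h.hq, ?_, h.hp, ?_⟩
  · rw [h.ho]
    exact Nat.mod_lt _ hB
  · rw [h.hc]
    refine (Finset.card_filter_le _ _).trans ?_
    rw [Finset.card_range]
  · rw [h.hk']
    refine (Finset.card_filter_le _ _).trans ?_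
    rw [Finset.card_range]
    exact h.hq
  · obtain ⟨X, h1, h2, h3, h4⟩ := h.hX
    rw [← h3]
    refine (Finset.card_le_card h1).trans ?_
    rw [Finset.card_range]
    exact h.hp

/-- The bounds for the states. -/
def BdV (B : ℕ) (v : V) : Prop := v.o ≤ B ∧ v.c ≤ B ∧ v.q ≤ B ∧ v.k' ≤ B ∧ v.p ≤ B ∧ v.k ≤ B

def Bd (B : ℕ) : St → Prop
  | .p1 => True
  | .rw => True
  | .main v => BdV B v
  | .goL v m => BdV B v ∧ m ≤ B
  | .sL v s m => BdV B v ∧ s ≤ B ∧ m ≤ B
  | .sR v s m => BdV B v ∧ s ≤ B ∧ m ≤ B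
  | .goR v x m => BdV B v ∧ x ≤ B ∧ m ≤ B
  | .kL v m => BdV B v ∧ m ≤ B
  | .kR v m => BdV B v ∧ m ≤ B
  | .fin _ => True

theorem MI.bdV {v : V} {t : ℕ} (hB : 0 < B) (h : MI B rel p0 facc w b v t) : BdV B v := by
  obtain ⟨h1, h2⟩ := h.bd hB
  exact ⟨h1.le, h2⟩

theorem J_bd (h0 : p0 < B) {s : St} {x : ℕ} (hJ : J B rel p0 facc w b s x) : Bd B s := by
  have hB : 0 < B := by omega
  cases s with
  | p1 => trivial
  | rw => trivial
  | main v =>
    obtain ⟨t, _, h⟩ := hJ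
    exact h.bdV hB
  | goL v m =>
    obtain ⟨t, h, h1, h2, h3⟩ := hJ
    have := (h.bd hB).1
    exact ⟨h.bdV hB, by omega⟩
  | sL v s m =>
    obtain ⟨t, h, h1, h2, h3, h4, h5⟩ := hJ
    exact ⟨h.bdV hB, by omega, by omega⟩
  | sR v s m =>
    obtain ⟨t, h, h1, h2, h3, h4⟩ := hJ
    have := nr_lt h0 h2
    exact ⟨h.bdV hB, by omega, by omega⟩
  | goR v x m =>
    obtain ⟨t, h, h1, h2, h3, h4, h5⟩ := hJ
    have := nr_lt h0 h2
    have := (h.bd hB).1
    exact ⟨h.bdV hB, by omega, by omega⟩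
  | kL v m =>
    obtain ⟨t, h, h1, h2, h3, h4, h5, h6, h7⟩ := hJ
    exact ⟨h.bdV hB, by omega⟩
  | kR v m =>
    obtain ⟨t, h, h1, h2, h3, h4, h5, h6, h7, h8⟩ := hJ
    exact ⟨h.bdV hB, by omega⟩
  | fin b => trivial

/-- The head stays on the tape until the final state is reached. -/
theorem J_pos {s : St} {x : ℕ} (hJ : J B rel p0 facc w b s x) (h1 : s ≠ .p1)
    (h2 : ∀ f, s ≠ .fin f) : x ≤ w.length + 1 := by
  cases s with
  | p1 => exact absurd rfl h1
  | rw =>
    have h : x ≤ w.length := hJ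
    omega
  | main v =>
    obtain ⟨t, h3, h⟩ := hJ
    have := h.ht
    omega
  | goL v m =>
    obtain ⟨t, h, h4, h5, h3⟩ := hJ
    have := h.ht
    omega
  | sL v s m =>
    obtain ⟨t, h, h6, h3, h4, h5, h7⟩ := hJ
    have := h.ht
    omega
  | sR v s m =>
    obtain ⟨t, h, h5, h3, h4, h6⟩ := hJ
    have := h.ht
    omega
  | goR v x m =>
    obtain ⟨t, h, h6, h3, h4, h5, h7⟩ := hJ
    have := h.ht
    omega
  | kL v m =>
    obtain ⟨t, h, h6, h7, h3, h4, h5, h8, h9⟩ := hJ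
    have := h.ht
    omega
  | kR v m =>
    obtain ⟨t, h, h8, h9, h3, h4, h5, h6, h7, h10⟩ := hJ
    have := h.ht
    omega
  | fin b => exact absurd rfl (h2 b)

end Pool.Agent.U593.SV
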