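import Mathlib
import Pool.Agent.U593.SV.Sound
import Pool.Agent.U593.SV.Compl
import Pool.Agent.H630R2.LA.Upper

set_option autoImplicit false

/-! The 1-limited automaton that guesses the annotation and makes the walk. -/

namespace Pool.Agent.U593.SV

open Pool.Agent.H630R2.LA Relation

/-! ### The machine -/

/-- The states of the machine. -/
def QB (B : ℕ) : Type := {s : St // Bd B s}

/-- A code of a state. -/
def code : St → ℕ × ℕ × ℕ × ℕ × ℕ × ℕ × ℕ × ℕ × ℕ × Bool
  | .p1 => (0, 0, 0, 0, 0, 0, 0, 0, 0, false)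
  | .rw => (1, 0, 0, 0, 0, 0, 0, 0, 0, false)
  | .main v => (2, v.o, v.c, v.q, v.k', v.p, v.k, 0, 0, v.fd)
  | .goL v m => (3, v.o, v.c, v.q, v.k', v.p, v.k, m, 0, v.fd)
  | .sL v s m => (4, v.o, v.c, v.q, v.k', v.p, v.k, m, s, v.fd)
  | .sR v s m => (5, v.o, v.c, v.q, v.k', v.p, v.k, m, s, v.fd)
  | .goR v x m => (6, v.o, v.c, v.q, v.k', v.p, v.k, m, x, v.fd)
  | .kL v m => (7, v.o, v.c, v.q, v.k', v.p, v.k, m, 0, v.fd)
  | .kR v m => (8, v.o, v.c, v.q, v.k', v.p, v.k, m, 0, v.fd)
  | .fin b => (9, 0, 0, 0, 0, 0, 0, 0, 0, b)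

theorem code_inj : Function.Injective code := by
  intro x y h
  cases x <;> cases y <;> simp only [code, Prod.mk.injEq] at h <;>
    first
    | rfl
    | (exfalso; have h' := h.1; omega)
    | (simp only [St.main.injEq, St.goL.injEq, St.sL.injEq, St.sR.injEq, St.goR.injEq, St.kL.injEq,
        St.kR.injEq, St.fin.injEq, V.ext_iff]; tauto)

/-- The bounded codes. -/
def codeF (B : ℕ) (x : QB B) : Fin 10 × Fin (B + 1) × Fin (B + 1) × Fin (B + 1) × Fin (B + 1) ×
    Fin (B + 1) × Fin (B + 1) × Fin (B + 1) × Fin (B + 1) × Bool :=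
  (Fin.ofNat 10 (code x.1).1, Fin.ofNat (B + 1) (code x.1).2.1,
    Fin.ofNat (B + 1) (code x.1).2.2.1, Fin.ofNat (B + 1) (code x.1).2.2.2.1,
    Fin.ofNat (B + 1) (code x.1).2.2.2.2.1, Fin.ofNat (B + 1) (code x.1).2.2.2.2.2.1,
    Fin.ofNat (B + 1) (code x.1).2.2.2.2.2.2.1, Fin.ofNat (B + 1) (code x.1).2.2.2.2.2.2.2.1,
    Fin.ofNat (B + 1) (code x.1).2.2.2.2.2.2.2.2.1, (code x.1).2.2.2.2.2.2.2.2.2)

theorem code_bd {B : ℕ} (x : QB B) : (code x.1).1 < 10 ∧ (code x.1).2.1 < B + 1 ∧
    (code x.1).2.2.1 < B + 1 ∧ (code x.1).2.2.2.1 < B + 1 ∧ (code x.1).2.2.2.2.1 < B + 1 ∧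
    (code x.1).2.2.2.2.2.1 < B + 1 ∧ (code x.1).2.2.2.2.2.2.1 < B + 1 ∧
    (code x.1).2.2.2.2.2.2.2.1 < B + 1 ∧ (code x.1).2.2.2.2.2.2.2.2.1 < B + 1 := by
  obtain ⟨s, hs⟩ := x
  cases s <;> simp only [code, Bd, BdV] at hs ⊢ <;> omega

theorem ofNat_inj {n a b : ℕ} [NeZero n] (ha : a < n) (hb : b < n)
    (h : Fin.ofNat n a = Fin.ofNat n b) : a = b := by
  have h1 := congrArg Fin.val h
  simpa [Fin.ofNat, Nat.mod_eq_of_lt ha, Nat.mod_eq_of_lt hb] using h1

theorem codeF_inj (B : ℕ) : Function.Injective (codeF B) := by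
  intro x y h
  have hx := code_bd x
  have hy := code_bd y
  obtain ⟨x0, x1, x2, x3, x4, x5, x6, x7, x8⟩ := hx
  obtain ⟨y0, y1, y2, y3, y4, y5, y6, y7, y8⟩ := hy
  simp only [codeF, Prod.mk.injEq] at h
  obtain ⟨h0, h1, h2, h3, h4, h5, h6, h7, h8, h9⟩ := h
  apply Subtype.ext
  apply code_inj
  refine Prod.ext (ofNat_inj x0 y0 h0) (Prod.ext (ofNat_inj x1 y1 h1) (Prod.ext
    (ofNat_inj x2 y2 h2) (Prod.ext (ofNat_inj x3 y3 h3) (Prod.ext (ofNat_inj x4 y4 h4)
    (Prod.ext (ofNat_inj x5 y5 h5) (Prod.ext (ofNat_inj x6 y6 h6) (Prod.ext (ofNat_inj x7 y7 h7)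
    (Prod.ext (ofNat_inj x8 y8 h8) h9))))))))

theorem finite_QB (B : ℕ) : Finite (QB B) := Finite.of_injective _ (codeF_inj B)

theorem card_QB (B : ℕ) : Nat.card (QB B) ≤ 20 * (B + 1) ^ 8 := by
  refine (Nat.card_le_card_of_injective _ (codeF_inj B)).trans ?_
  have h1 : Nat.card (Fin (B + 1)) = B + 1 := by simp
  have h2 : Nat.card (Fin 10) = 10 := by simp
  have h3 : Nat.card Bool = 2 := by simp
  simp only [Nat.card_prod, h1, h2, h3]
  apply le_of_eq
  ring

section mach

variable {A : Type} (B : ℕ) (rel : A → ℕ → ℕ → Prop) (p0 : ℕ) (facc : ℕ → Prop)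

/-- The moves of the first phase: the bits are guessed. -/
def tr1 (σ : Sym (WS A)) (q' : St) (x : WS A) (d : Bool) : Prop :=
  (∃ a, σ = .sym (.raw a) ∧ q' = .p1 ∧ (∃ c, x = .mark a c) ∧ d = true) ∨
    (σ = .rm ∧ q' = .rw ∧ x = .dum ∧ d = false)

/-- The moves of the second phase. -/
def tr2 (σ : Sym (WS A)) (q q' : St) (d : Bool) : Prop :=
  ∃ z, ReflTransGen (E B rel facc σ) q z ∧ Mv B rel p0 σ z q' d

/-- The machine. -/
def svM [Finite A] : LimAut A where
  Q := QB B
  W := WS A
  finQ := finite_QB B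
  finW := finite_WS A
  inp := WS.raw
  inp_inj := by
    intro a b hab
    cases hab
    rfl
  δ := fun q σ => {x | (q.1 = .p1 ∧ tr1 σ x.1.1 x.2.1 x.2.2) ∨
    (x.2.1 = keep σ ∧ tr2 B rel p0 facc σ q.1 x.1.1 x.2.2)}
  q0 := ⟨.p1, trivial⟩
  F := {⟨.fin true, trivial⟩}

/-- The rejecting states. -/
def svR [Finite A] : Set (svM B rel p0 facc : LimAut A).Q := {⟨.fin false, trivial⟩}

end mach

section sound

variable {A : Type} {B : ℕ} {rel : A → ℕ → ℕ → Prop} {p0 : ℕ} {facc : ℕ → Prop}
variable {w : List A}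

theorem J_Es {b : ℕ → Bool} (h0 : p0 < B) {x : ℕ} {s s' : St}
    (hE : ReflTransGen (E B rel facc (full w b x)) s s')
    (hJ : J B rel p0 facc w b s x) : J B rel p0 facc w b s' x := by
  induction hE with
  | refl => exact hJ
  | tail _ h ih => exact J_E h0 h ih

/-- The initial tape. -/
def ini (w : List A) : ℕ → Sym (WS A)
  | 0 => .lm
  | i + 1 => match w[i]? with
    | some a => .sym (.raw a)
    | none => .rm

theorem ini_eq [Finite A] : initTape (svM B rel p0 facc) w = ini w := by
  funext j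
  cases j with
  | zero => rfl
  | succ j => rfl

/-- The tape in the first phase. -/
def mix (w : List A) (b : ℕ → Bool) (i : ℕ) : ℕ → Sym (WS A) :=
  fun j => if j ≤ i then full w b j else ini w j

theorem mix_all (b : ℕ → Bool) : mix w b w.length = full w b := by
  funext j
  unfold mix
  by_cases h : j ≤ w.length
  · rw [if_pos h]
  · rw [if_neg h]
    obtain ⟨j, rfl⟩ : ∃ k, j = k + 1 := ⟨j - 1, by omega⟩
    have h1 : w[j]? = none := List.getElem?_eq_none (by omega)
    simp only [ini, full, h1]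

theorem mix_zero (b : ℕ → Bool) : mix w b 0 = ini w := by
  funext j
  unfold mix
  by_cases h : j ≤ 0
  · rw [if_pos h]
    have : j = 0 := by omega
    subst this
    rfl
  · rw [if_neg h]

theorem mix_next (b : ℕ → Bool) {i : ℕ} (hi : i < w.length) :
    mix w b i (i + 1) = .sym (.raw w[i]) := by
  unfold mix
  rw [if_neg (by omega)]
  have h1 : w[i]? = some w[i] := List.getElem?_eq_getElem hi
  simp only [ini, h1]

theorem mix_end (b : ℕ → Bool) {i : ℕ} (hi : w.length ≤ i) :
    mix w b i (i + 1) = .rm := by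
  unfold mix
  rw [if_neg (by omega)]
  have h1 : w[i]? = none := List.getElem?_eq_none hi
  simp only [ini, h1]

theorem mix_update (b b' : ℕ → Bool) {i : ℕ} (hi : i < w.length)
    (hb : ∀ j, j ≤ i → b' j = b j) :
    Function.update (mix w b i) (i + 1) (.sym (.mark w[i] (b' (i + 1)))) =
      mix w b' (i + 1) := by
  funext j
  by_cases h : j = i + 1
  · subst h
    rw [Function.update_self]
    unfold mix
    rw [if_pos le_rfl]
    have h1 : w[i]? = some w[i] := List.getElem?_eq_getElem hi
    simp only [full, h1]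
  · rw [Function.update_of_ne h]
    unfold mix
    by_cases h2 : j ≤ i
    · rw [if_pos h2, if_pos (by omega)]
      rcases Nat.eq_zero_or_pos j with h3 | h3
      · subst h3
        rfl
      · rw [full_mark h3 (by omega), full_mark h3 (by omega), hb j h2]
    · rw [if_neg h2, if_neg (by omega)]

theorem upd_full (b : ℕ → Bool) {x : ℕ} (hx : x = 0 ∨ w.length < x) (y : WS A) :
    Function.update (full w b) x ((full w b x).rewrite y) = full w b := by
  funext j
  by_cases h : j = x
  · subst h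
    rw [Function.update_self]
    rcases hx with hx | hx
    · subst hx
      rfl
    · rw [full_ge hx]
      rfl
  · rw [Function.update_of_ne h]

/-- The invariant of the machine. -/
def Inv [Finite A] (B : ℕ) (rel : A → ℕ → ℕ → Prop) (p0 : ℕ) (facc : ℕ → Prop) (w : List A)
    (c : Cfg (svM B rel p0 facc : LimAut A)) : Prop :=
  (∃ i b, i ≤ w.length ∧ c.state.1 = .p1 ∧ c.pos = i + 1 ∧ c.tape = mix w b i ∧
    ∀ j, j ∈ c.seen ↔ 1 ≤ j ∧ j ≤ i) ∨
  ∃ b, c.state.1 ≠ .p1 ∧ c.tape = full w b ∧ (∀ j, 1 ≤ j → j ≤ w.length + 1 → j ∈ c.seen) ∧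
    J B rel p0 facc w b c.state.1 c.pos

theorem no_E_p1 {σ : Sym (WS A)} {s : St} (h : ReflTransGen (E B rel facc σ) .p1 s) : s = .p1 := by
  rcases ReflTransGen.cases_head h with h | ⟨c, h, _⟩
  · exact h.symm
  · cases h

theorem no_E_fin {σ : Sym (WS A)} {s : St} {f : Bool}
    (h : ReflTransGen (E B rel facc σ) (.fin f) s) : s = .fin f := by
  rcases ReflTransGen.cases_head h with h | ⟨c, h, _⟩
  · exact h.symm
  · cases h

theorem E_ne_p1 {σ : Sym (WS A)} {s s' : St} (h : E B rel facc σ s s') : s' ≠ .p1 := by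
  cases h <;> simp

theorem Mv_ne_p1 {σ : Sym (WS A)} {s s' : St} {d : Bool} (h : Mv B rel p0 σ s s' d) :
    s' ≠ .p1 := by
  cases h <;> simp

theorem E_to_fin {σ : Sym (WS A)} {s : St} {f : Bool}
    (h : ReflTransGen (E B rel facc σ) s (.fin f)) : s = .fin f := by
  rcases ReflTransGen.cases_tail h with h | ⟨c, _, h⟩
  · exact h.symm
  · cases h

variable [Finite A]

/-- The invariant is preserved. -/
theorem inv_step (h0 : p0 < B) {strict : Prop} {c c' : Cfg (svM B rel p0 facc : LimAut A)}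
    (hs : Step strict w.length c c') (hI : Inv B rel p0 facc w c) : Inv B rel p0 facc w c' := by
  classical
  obtain ⟨hle, q, x, d, hδ, _, hst, ht1, ht2, hse, hr, hl⟩ := hs
  rcases hI with ⟨i, b, hi, hp1, hpos, htape, hseen⟩ | ⟨b, hp1, htape, hseen, hJ⟩
  · -- the first phase
    have hnot : c.pos ∉ c.seen := by
      rw [hseen, hpos]
      omega
    have htape' := ht2 hnot
    rcases hδ with ⟨_, h1⟩ | ⟨_, z, hz, hM⟩
    · rcases h1 with ⟨a, h2, h3, ⟨e, h4⟩, h5⟩ | ⟨h2, h3, h4, h5⟩
      · -- a letter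
        rw [htape, hpos] at h2
        have hi' : i < w.length := by
          by_contra hcon
          rw [mix_end b (by omega)] at h2
          exact absurd h2 (by simp)
        rw [mix_next b hi'] at h2
        have h2' : w[i] = a := by
          have h6 : (Sym.sym (WS.raw w[i]) : Sym (WS A)) = Sym.sym (WS.raw a) := h2
          simp only [Sym.sym.injEq, WS.raw.injEq] at h6
          exact h6
        left
        refine ⟨i + 1, fun j => if j = i + 1 then e else b j, hi', ?_, ?_, ?_, ?_⟩
        · rw [hst]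
          exact h3
        · rw [hr h5, hpos]
        · rw [htape', hpos, htape, mix_next b hi', ← mix_update b _ hi' (fun j hj => by
            rw [if_neg (by omega)])]
          have h4' : x = WS.mark a e := h4
          rw [h4', h2', if_pos rfl]
          rfl
        · intro j
          rw [hse, Set.mem_insert_iff, hseen, hpos]
          omega
      · -- the end-marker
        rw [htape, hpos] at h2
        have hi' : i = w.length := by
          by_contra hcon
          rw [mix_next b (by omega)] at h2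
          exact absurd h2 (by simp)
        subst hi'
        right
        have h3' : q.1 = St.rw := h3
        refine ⟨b, ?_, ?_, ?_, ?_⟩
        · rw [hst, h3']
          simp
        · rw [htape', hpos, htape, mix_all]
          exact upd_full b (Or.inr (by omega)) x
        · intro j hj1 hj2
          rw [hse, Set.mem_insert_iff, hseen, hpos]
          omega
        · rw [hst, h3']
          have := hl h5
          show c'.pos ≤ w.length
          omega
    · have hM' : Mv B rel p0 (c.tape c.pos) z q.1 d := hM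
      have hz' : ReflTransGen (E B rel facc (c.tape c.pos)) c.state.1 z := hz
      rw [hp1] at hz'
      rw [no_E_p1 hz'] at hM'
      cases hM'
  · -- the second phase
    rcases hδ with ⟨h1, _⟩ | ⟨hx, z, hz, hM⟩
    · exact absurd h1 hp1
    · have hM' : Mv B rel p0 (c.tape c.pos) z q.1 d := hM
      have hz' : ReflTransGen (E B rel facc (c.tape c.pos)) c.state.1 z := hz
      right
      refine ⟨b, ?_, ?_, ?_, ?_⟩
      · rw [hst]
        exact Mv_ne_p1 hM'
      · by_cases hin : c.pos ∈ c.seen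
        · rw [ht1 hin, htape]
        · have hpos : c.pos = 0 := by
            by_contra hne
            exact hin (hseen _ (by omega) hle)
          rw [ht2 hin, htape, hpos]
          exact upd_full b (Or.inl rfl) x
      · intro j hj1 hj2
        rw [hse]
        exact Set.mem_insert_of_mem _ (hseen j hj1 hj2)
      · rw [hst]
        rw [htape] at hM' hz'
        exact J_Mv h0 hM' hr hl (J_Es h0 hz' hJ)

theorem inv_init : Inv B rel p0 facc w (init (svM B rel p0 facc) w) := by
  left
  refine ⟨0, fun _ => false, Nat.zero_le _, rfl, rfl, ini_eq.trans (mix_zero _).symm, ?_⟩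
  intro j
  show j ∈ (∅ : Set ℕ) ↔ _
  simp only [Set.mem_empty_iff_false, false_iff]
  omega

/-- **Soundness.** The final states are right. -/
theorem sound (h0 : p0 < B) {strict : Prop} {c : Cfg (svM B rel p0 facc : LimAut A)}
    (hc : ReflTransGen (Step strict w.length) (init (svM B rel p0 facc) w) c) {f : Bool}
    (hf : c.state.1 = .fin f) : f = true ↔ ∃ p, facc p ∧ nr B rel p0 w w.length p := by
  have hI : Inv B rel p0 facc w c := by
    clear hf
    induction hc with
    | refl => exact inv_init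
    | tail _ h ih => exact inv_step h0 h ih
  rcases hI with ⟨i, b, _, h1, _⟩ | ⟨b, _, _, _, hJ⟩
  · rw [hf] at h1
    exact absurd h1 (by simp)
  · rw [hf] at hJ
    exact hJ

end sound

end Pool.Agent.U593.SV
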