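import Mathlib
import Pool.Agent.U593.SV.Mach

set_option autoImplicit false

/-! The machine is complete. -/

namespace Pool.Agent.U593.SV

open Pool.Agent.H630R2.LA Relation

variable {A : Type} {B : ℕ} {rel : A → ℕ → ℕ → Prop} {p0 : ℕ} {facc : ℕ → Prop}
variable {w : List A} [Finite A]

/-- The configurations of the machine. -/
def cfg (B : ℕ) (rel : A → ℕ → ℕ → Prop) (p0 : ℕ) (facc : ℕ → Prop) (s : St) (h : Bd B s) (x : ℕ)
    (τ : ℕ → Sym (WS A)) (S : Set ℕ) : Cfg (svM B rel p0 facc : LimAut A) :=
  ⟨⟨s, h⟩, x, τ, S⟩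

/-- The first phase. -/
theorem phase1 (strict : Prop) (b : ℕ → Bool) (i : ℕ) (hi : i ≤ w.length) :
    ∃ S : Set ℕ, (∀ j, j ∈ S ↔ 1 ≤ j ∧ j ≤ i) ∧
      ReflTransGen (Step strict w.length) (init (svM B rel p0 facc) w)
        (cfg B rel p0 facc .p1 trivial (i + 1) (mix w b i) S) := by
  classical
  induction i with
  | zero =>
    refine ⟨∅, ?_, ?_⟩
    · intro j
      simp only [Set.mem_empty_iff_false, false_iff]
      omega
    · rw [mix_zero]
      have h1 : init (svM B rel p0 facc) w = cfg B rel p0 facc .p1 trivial 1 (ini w) ∅ := by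
        unfold init cfg
        rw [ini_eq]
        rfl
      rw [h1]
  | succ i ih =>
    obtain ⟨S, hS, h1⟩ := ih (by omega)
    have hnot : i + 1 ∉ S := by
      rw [hS]
      omega
    refine ⟨insert (i + 1) S, ?_, h1.tail ?_⟩
    · intro j
      rw [Set.mem_insert_iff, hS]
      omega
    · have hi' : i < w.length := by omega
      refine ⟨by show i + 1 ≤ w.length + 1; omega, ⟨.p1, trivial⟩, .mark w[i] (b (i + 1)), true,
        ?_, fun _ h => absurd h hnot, rfl, fun h => absurd h hnot, ?_, rfl, fun _ => rfl,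
        fun h => absurd h (by simp)⟩
      · left
        refine ⟨rfl, Or.inl ⟨w[i], ?_, rfl, ⟨b (i + 1), rfl⟩, rfl⟩⟩
        show mix w b i (i + 1) = _
        exact mix_next b hi'
      · intro _
        show mix w b (i + 1) =
          Function.update (mix w b i) (i + 1) ((mix w b i (i + 1)).rewrite (.mark w[i] (b (i + 1))))
        rw [mix_next b hi', ← mix_update b b hi' (fun _ _ => rfl)]
        rfl

/-- The step at the end-marker. -/
theorem phase2 (strict : Prop) (b : ℕ → Bool) :
    ∃ S : Set ℕ, (∀ j, 1 ≤ j → j ≤ w.length + 1 → j ∈ S) ∧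
      ReflTransGen (Step strict w.length) (init (svM B rel p0 facc) w)
        (cfg B rel p0 facc .rw trivial w.length (full w b) S) := by
  classical
  obtain ⟨S, hS, h1⟩ := phase1 (B := B) (rel := rel) (p0 := p0) (facc := facc) strict b w.length
    le_rfl
  have hnot : w.length + 1 ∉ S := by
    rw [hS]
    omega
  refine ⟨insert (w.length + 1) S, ?_, h1.tail ?_⟩
  · intro j h2 h3
    rw [Set.mem_insert_iff, hS]
    omega
  · refine ⟨le_rfl, ⟨.rw, trivial⟩, .dum, false, ?_, fun _ h => absurd h hnot, rfl,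
      fun h => absurd h hnot, ?_, rfl, fun h => absurd h (by simp), fun _ => rfl⟩
    · left
      refine ⟨rfl, Or.inr ⟨?_, rfl, rfl, rfl⟩⟩
      show mix w b w.length (w.length + 1) = _
      exact mix_end b le_rfl
    · intro _
      show full w b = Function.update (mix w b w.length) (w.length + 1)
        ((mix w b w.length (w.length + 1)).rewrite .dum)
      rw [mix_all]
      exact (upd_full b (Or.inr (by omega)) _).symm

/-- The walk is made by the machine. -/
theorem conv (h0 : p0 < B) (strict : Prop) {b : ℕ → Bool} {f : Bool} {y : St × ℕ}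
    (hy : ReflTransGen (R B rel p0 facc (full w b)) y (.fin f, w.length + 2)) :
    ∀ (s0 : St) (hb : Bd B s0), ReflTransGen (E B rel facc (full w b y.2)) s0 y.1 →
    J B rel p0 facc w b s0 y.2 → ∀ S : Set ℕ, (∀ j, 1 ≤ j → j ≤ w.length + 1 → j ∈ S) →
    ∃ S' : Set ℕ, ReflTransGen (Step strict w.length) (cfg B rel p0 facc s0 hb y.2 (full w b) S)
      (cfg B rel p0 facc (.fin f) trivial (w.length + 2) (full w b) S') := by
  induction hy using ReflTransGen.head_induction_on with
  | refl =>
    intro s0 hb h1 _ S _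
    have h2 := E_to_fin h1
    subst h2
    exact ⟨S, ReflTransGen.refl⟩
  | head hR hrest ih =>
    rename_i y z
    clear hrest
    intro s0 hb h1 hJ S hS
    rcases hR with ⟨hE, hz⟩ | ⟨d, hM, hr, hl⟩
    · have h2 : ReflTransGen (E B rel facc (full w b z.2)) s0 z.1 := by
        rw [hz]
        exact h1.tail hE
      have h3 := ih s0 hb h2 (by rw [hz]; exact hJ) S hS
      rw [hz] at h3
      exact h3
    · have hne1 : s0 ≠ .p1 := by
        rintro rfl
        rw [no_E_p1 h1] at hM
        cases hM
      have hne2 : ∀ f, s0 ≠ .fin f := by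
        rintro f rfl
        rw [no_E_fin h1] at hM
        cases hM
      have hpos := J_pos hJ hne1 hne2
      have hJ1 := J_Es h0 h1 hJ
      have hJ2 := J_Mv h0 hM hr hl hJ1
      have hbz := J_bd h0 hJ2
      obtain ⟨S', h3⟩ := ih z.1 hbz ReflTransGen.refl hJ2 (insert y.2 S)
        (fun j hj1 hj2 => Set.mem_insert_of_mem _ (hS j hj1 hj2))
      refine ⟨S', ReflTransGen.head ?_ h3⟩
      refine ⟨hpos, ⟨z.1, hbz⟩, keep (full w b y.2), d, ?_, ?_, rfl, fun _ => rfl, ?_, rfl, hr, hl⟩
      · right
        exact ⟨rfl, y.1, h1, hM⟩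
      · intro _ _
        exact rewrite_keep _
      · intro hn
        have h4 : y.2 = 0 ∨ w.length < y.2 := by
          by_contra hcon
          have h5 : y.2 ∈ S := hS y.2 (by omega) hpos
          exact hn h5
        exact (upd_full b h4 _).symm

omit [Finite A] in
/-- The right annotation is right. -/
theorem right_bOK : Right B rel p0 w (bOK B rel p0 w) := fun _ _ hj hs => bOK_iff hj hs

open Classical in
/-- **Completeness.** The machine reaches the right final state. -/
theorem complete (h0 : p0 < B) (strict : Prop) :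
    ∃ c : Cfg (svM B rel p0 facc : LimAut A),
      ReflTransGen (Step strict w.length) (init (svM B rel p0 facc) w) c ∧
      c.pos = w.length + 2 ∧
      c.state.1 = .fin (decide (∃ p, facc p ∧ nr B rel p0 w w.length p)) := by
  obtain ⟨S, hS, h1⟩ := phase2 (B := B) (rel := rel) (p0 := p0) (facc := facc) (w := w) strict
    (bOK B rel p0 w)
  have h2 := run_final (facc := facc) (by omega) h0 (right_bOK (B := B) (rel := rel) (p0 := p0)
    (w := w))
  obtain ⟨S', h3⟩ := conv h0 strict h2 .rw trivial ReflTransGen.refl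
    (show w.length ≤ w.length from le_rfl) S hS
  exact ⟨_, h1.trans h3, rfl, rfl⟩

/-- The language of the machine. -/
theorem mem_svM (h0 : p0 < B) (strict : Prop) (w : List A) :
    w ∈ (svM B rel p0 facc : LimAut A).language strict ↔
      ∃ p, facc p ∧ nr B rel p0 w w.length p := by
  classical
  constructor
  · rintro ⟨c, hc, _, hf⟩
    have hf' : c.state.1 = .fin true := congrArg Subtype.val hf
    exact (sound h0 hc hf').1 rfl
  · intro h
    obtain ⟨c, hc, hp, hs⟩ := complete (B := B) (rel := rel) (p0 := p0) (facc := facc) (w := w)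
      h0 strict
    rw [decide_eq_true h] at hs
    exact ⟨c, hc, hp, Subtype.ext hs⟩

/-- The inputs that are rejected by the machine. -/
theorem rej_svM (h0 : p0 < B) (strict : Prop) (w : List A) :
    (∃ c : Cfg (svM B rel p0 facc : LimAut A),
      ReflTransGen (Step strict w.length) (init (svM B rel p0 facc) w) c ∧
      c.pos = w.length + 2 ∧ c.state ∈ svR B rel p0 facc) ↔
      ¬ ∃ p, facc p ∧ nr B rel p0 w w.length p := by
  classical
  constructor
  · rintro ⟨c, hc, _, hf⟩ h
    have hf' : c.state.1 = .fin false := congrArg Subtype.val hf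
    exact absurd ((sound h0 hc hf').2 h) (by simp)
  · intro h
    obtain ⟨c, hc, hp, hs⟩ := complete (B := B) (rel := rel) (p0 := p0) (facc := facc) (w := w)
      h0 strict
    rw [decide_eq_false h] at hs
    exact ⟨c, hc, hp, Subtype.ext hs⟩

/-! ### The size -/

theorem numTrans_le_all {A : Type} (M : LimAut A) :
    M.numTrans ≤ Nat.card M.Q * ((Nat.card M.W + 2) * (Nat.card M.Q * (Nat.card M.W * 2))) := by
  have := M.finQ
  have := M.finW
  have := finite_Sym M.W
  have h1 : Nat.card (M.Q × Sym M.W × M.Q × M.W × Bool) =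
      Nat.card M.Q * ((Nat.card M.W + 2) * (Nat.card M.Q * (Nat.card M.W * 2))) := by
    have h2 : Nat.card Bool = 2 := by simp
    rw [Nat.card_prod, Nat.card_prod, Nat.card_prod, Nat.card_prod, card_Sym, h2]
  rw [← h1]
  unfold LimAut.numTrans
  rw [← Set.ncard_univ]
  exact Set.ncard_le_ncard (Set.subset_univ _) (Set.toFinite _)

/-- The size of the machine. -/
theorem size_svM : (svM B rel p0 facc : LimAut A).size ≤
    100000 * ((B + 1) ^ 16 * (Nat.card A + 1) ^ 2) := by
  have h1 := numTrans_le_all (svM B rel p0 facc : LimAut A)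
  have h2 : Nat.card (svM B rel p0 facc : LimAut A).Q ≤ 20 * (B + 1) ^ 8 := card_QB B
  have h3 : Nat.card (svM B rel p0 facc : LimAut A).W = 3 * Nat.card A + 1 := card_WS A
  have hF : (svM B rel p0 facc : LimAut A).F.ncard = 1 := Set.ncard_singleton _
  unfold LimAut.size
  rw [hF, h3]
  rw [h3] at h1
  have hX : 1 ≤ (B + 1) ^ 8 := Nat.one_le_pow _ _ (by omega)
  have hXX : (B + 1) ^ 16 = (B + 1) ^ 8 * (B + 1) ^ 8 := by rw [← pow_add]
  rw [hXX]
  generalize (svM B rel p0 facc : LimAut A).numTrans = T at *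
  generalize Nat.card (svM B rel p0 facc : LimAut A).Q = q at *
  generalize (B + 1) ^ 8 = X at *
  generalize Nat.card A = a at *
  have h4 : q * ((3 * a + 1 + 2) * (q * ((3 * a + 1) * 2))) ≤
      (20 * X) * ((3 * (a + 1)) * ((20 * X) * ((3 * (a + 1)) * 2))) := by
    have h5 : 3 * a + 1 + 2 = 3 * (a + 1) := by ring
    have h6 : 3 * a + 1 ≤ 3 * (a + 1) := by omega
    rw [h5]
    gcongr
  have h5 : (20 * X) * ((3 * (a + 1)) * ((20 * X) * ((3 * (a + 1)) * 2))) =
      7200 * (X * X * (a + 1) ^ 2) := by ring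
  rw [h5] at h4
  have h6 : X ≤ X * X * (a + 1) ^ 2 := by
    have h7 : 1 ≤ X * (a + 1) ^ 2 := Nat.mul_pos hX (by positivity)
    calc X = X * 1 := (mul_one X).symm
      _ ≤ X * (X * (a + 1) ^ 2) := Nat.mul_le_mul_left _ h7
      _ = X * X * (a + 1) ^ 2 := by ring
  have h7 : a + 1 ≤ X * X * (a + 1) ^ 2 := by
    have h8 : 1 ≤ X * X * (a + 1) := Nat.mul_pos (Nat.mul_pos hX hX) (by omega)
    calc a + 1 = 1 * (a + 1) := (one_mul _).symm
      _ ≤ (X * X * (a + 1)) * (a + 1) := Nat.mul_le_mul_right _ h8
      _ = X * X * (a + 1) ^ 2 := by ring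
  omega

end Pool.Agent.U593.SV
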