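import Mathlib
import Pool.Agent.U593.SV.Run
import Pool.Agent.H630R2.LA.Nerode
import Pool.Agent.N602.FT.TimeWit

set_option autoImplicit false

/-! The simulation of 1-limited automata and the lower bound for complements. -/

namespace Pool.Agent.U593.SV

open Pool.Agent.H630R2.LA Relation

/-- The inputs on which some computation path of `M` moves past the right end-marker in a state
of `R`. -/
def ends {A : Type} (strict : Prop) (M : LimAut A) (R : Set M.Q) : Set (List A) :=
  {w | ∃ c : Cfg M, ReflTransGen (Step strict w.length) (init M w) c ∧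
    c.pos = w.length + 2 ∧ c.state ∈ R}

section simulate

variable {A : Type} {strict : Prop}

open Classical in
/-- Every 1-limited automaton whose table automaton has at most `B` states has an equivalent
self-verifying one. -/
theorem exists_sv [Finite A] (M : LimAut A) (strict : Prop) (B : ℕ)
    (hcard : Nat.card (Set (M.Q × M.Q) × M.Q) ≤ B) :
    ∃ (M' : LimAut A) (R : Set M'.Q), (∀ strict' : Prop,
      M'.language strict' = M.language strict ∧
      ends strict' M' R = (M.language strict)ᶜ) ∧ Disjoint M'.F R ∧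
      M'.size + R.ncard ≤ 100001 * ((B + 1) ^ 16 * (Nat.card A + 1) ^ 2) := by
  have := M.finQ
  obtain ⟨e⟩ : Nonempty (Set (M.Q × M.Q) × M.Q ↪ Fin B) := by
    have e1 := Finite.equivFin (Set (M.Q × M.Q) × M.Q)
    exact ⟨e1.toEmbedding.trans (Fin.castLEEmb hcard)⟩
  let rel : A → ℕ → ℕ → Prop := fun a i j =>
    ∃ x y, (e x).val = i ∧ (e y).val = j ∧ nstep strict M (.sym (M.inp a)) x y
  let p0 : ℕ := (e (ext strict M ∅ .lm, M.q0)).val
  let facc : ℕ → Prop := fun i => ∃ x y, (e x).val = i ∧ nstep strict M .rm x y ∧ y.2 ∈ M.F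
  have h0 : p0 < B := (e _).isLt
  have hval : ∀ x y, (e x).val = (e y).val → x = y := fun x y h => e.injective (Fin.ext h)
  have hlang : ∀ w : List A, w ∈ M.language strict ↔ ∃ p, facc p ∧ nr B rel p0 w w.length p := by
    intro w
    rw [mem_language]
    have key : ∀ t, t ≤ w.length → ∀ i, nr B rel p0 w t i ↔
        ∃ x, (e x).val = i ∧ nreach strict M (initTape M w) t x := by
      intro t
      induction t with
      | zero =>
        intro _ i
        constructor
        · intro h
          have h' : i = p0 := h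
          exact ⟨_, h'.symm, rfl⟩
        · rintro ⟨x, rfl, hx⟩
          have hx' : x = (ext strict M ∅ .lm, M.q0) := hx
          rw [hx']
          rfl
      | succ t ih =>
        intro ht i
        have hwt : w[t]? = some w[t] := List.getElem?_eq_getElem (by omega)
        have hcell : initTape M w (t + 1) = .sym (M.inp w[t]) := by
          simp only [initTape, hwt]
        constructor
        · rintro ⟨_, p, hp, a, ha, x', y, hx', hy, hs⟩
          rw [hwt] at ha
          cases ha
          obtain ⟨x, hx1, hx2⟩ := (ih (by omega) p).1 hp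
          have : x' = x := hval _ _ (by rw [hx', hx1])
          subst this
          refine ⟨y, hy, x', hx2, ?_⟩
          rw [hcell]
          exact hs
        · rintro ⟨y, hy, x, hx, hs⟩
          refine ⟨by rw [← hy]; exact (e y).isLt, (e x).val, (ih (by omega) _).2 ⟨x, rfl, hx⟩,
            w[t], hwt, ?_⟩
          rw [hcell] at hs
          exact ⟨x, y, rfl, hy, hs⟩
    have hlast : initTape M w (w.length + 1) = .rm := by
      simp only [initTape, List.getElem?_eq_none (le_refl w.length)]
    constructor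
    · rintro ⟨R, f, ⟨x, hx, hs⟩, hf⟩
      rw [hlast] at hs
      exact ⟨(e x).val, ⟨x, (R, f), rfl, hs, hf⟩, (key _ le_rfl _).2 ⟨x, rfl, hx⟩⟩
    · rintro ⟨f, ⟨x', y, hx', hs, hy⟩, hn⟩
      obtain ⟨x, hx1, hx2⟩ := (key _ le_rfl f).1 hn
      have : x' = x := hval _ _ (by rw [hx', hx1])
      subst this
      refine ⟨y.1, y.2, ⟨x', hx2, ?_⟩, hy⟩
      rw [hlast]
      exact hs
  refine ⟨svM B rel p0 facc, svR B rel p0 facc, fun strict' => ⟨?_, ?_⟩, ?_, ?_⟩
  · ext w
    rw [mem_svM h0 strict' w, hlang w]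
  · ext w
    rw [Set.mem_compl_iff, hlang w]
    exact rej_svM h0 strict' w
  · refine Set.disjoint_singleton.2 ?_
    intro h
    have h1 : St.fin true = St.fin false := congrArg Subtype.val h
    simp at h1
  · have h1 := size_svM (A := A) (B := B) (rel := rel) (p0 := p0) (facc := facc)
    have h2 : (svR B rel p0 facc : Set (svM B rel p0 facc : LimAut A).Q).ncard = 1 :=
      Set.ncard_singleton _
    rw [h2]
    have h3 : 1 ≤ (B + 1) ^ 16 * (Nat.card A + 1) ^ 2 := by
      have h4 : 1 ≤ (B + 1) ^ 16 := Nat.one_le_pow _ _ (by omega)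
      have h5 : 1 ≤ (Nat.card A + 1) ^ 2 := Nat.one_le_pow _ _ (by omega)
      calc 1 = 1 * 1 := rfl
        _ ≤ _ := Nat.mul_le_mul h4 h5
    omega

/-- **The simulation.** -/
theorem upper_sv [Finite A] (M : LimAut A) (strict : Prop) :
    ∃ (M' : LimAut A) (R : Set M'.Q), (∀ strict' : Prop,
      M'.language strict' = M.language strict ∧
      ends strict' M' R = (M.language strict)ᶜ) ∧ Disjoint M'.F R ∧
      M'.size + R.ncard ≤ 2 ^ (16 * M.size ^ 2) := by
  have := M.finQ
  have hq : Nat.card M.Q + Nat.card A + 3 ≤ M.size := by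
    unfold LimAut.size
    omega
  obtain ⟨M', R, h1, h2, h3⟩ := exists_sv M strict _ le_rfl
  refine ⟨M', R, h1, h2, h3.trans ?_⟩
  rw [card_table]
  generalize M.size = n at *
  generalize Nat.card M.Q = q at *
  generalize Nat.card A = a at *
  have h4 : 2 ^ (q * q) * q + 1 ≤ 2 ^ (q * q + q) := by
    rw [pow_add]
    have h4 : q + 1 ≤ 2 ^ q := Nat.lt_two_pow_self
    have h5 : 1 ≤ 2 ^ (q * q) := Nat.one_le_two_pow
    calc 2 ^ (q * q) * q + 1 ≤ 2 ^ (q * q) * q + 2 ^ (q * q) := by omega
      _ = 2 ^ (q * q) * (q + 1) := by ring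
      _ ≤ 2 ^ (q * q) * 2 ^ q := Nat.mul_le_mul_left _ h4
  have h5 : a + 1 ≤ 2 ^ a := Nat.lt_two_pow_self
  calc 100001 * ((2 ^ (q * q) * q + 1) ^ 16 * (a + 1) ^ 2)
      ≤ 2 ^ 17 * ((2 ^ (q * q + q)) ^ 16 * (2 ^ a) ^ 2) := by
        gcongr
        norm_num
    _ = 2 ^ (17 + ((q * q + q) * 16 + a * 2)) := by
        rw [← pow_mul 2 (q * q + q) 16, ← pow_mul 2 a 2, ← pow_add, ← pow_add]
    _ ≤ 2 ^ (16 * n ^ 2) := by
        apply Nat.pow_le_pow_right (by omega)
        nlinarith [Nat.zero_le q, Nat.zero_le a, Nat.mul_self_le_mul_self hq]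

end simulate

section lower

open Pool.Agent.N602.FT Pool.Agent.TH705.LB Pool.Agent.R620.KV

/-- **The lower bound for the complement.** -/
theorem lower_compl (m : ℕ) (strict : Prop) (N : LimAut (BL Ltr))
    (hN : N.language strict = ((bwit m).language strict)ᶜ) :
    2 ^ (m ^ 2) ≤ Nat.card N.Q * Nat.card N.Q + Nat.card N.Q := by
  have hfin := N.finQ
  have key : ∀ G : Set (Mat m), ∃ z, runs strict N (lft G 0) (x0 strict N) z ∧
      ∃ y, runs strict N (rgt G 0) z y ∧ finX strict N y := by
    intro G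
    have h1 : lft G 0 ++ rgt G 0 ∈ N.language strict := by
      rw [hN, Set.mem_compl_iff, mem_lft_rgt]
      rintro ⟨Y, h1, h2⟩
      exact h2 h1
    rw [mem_language_runs] at h1
    obtain ⟨y, h2, h3⟩ := h1
    rw [runs_append] at h2
    obtain ⟨z, h4, h5⟩ := h2
    exact ⟨z, h4, y, h5, h3⟩
  choose z hz1 hz2 using key
  have hsub : ∀ G G' : Set (Mat m), z G = z G' → G ⊆ G' := by
    intro G G' h Y hY
    by_contra hY'
    have h1 : lft G 0 ++ rgt G' 0 ∈ N.language strict := by
      rw [mem_language_runs]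
      obtain ⟨y, h2, h3⟩ := hz2 G'
      exact ⟨y, (runs_append _ _ _ _).2 ⟨z G, hz1 G, by rw [h]; exact h2⟩, h3⟩
    rw [hN, Set.mem_compl_iff, mem_lft_rgt] at h1
    exact h1 ⟨Y, hY, hY'⟩
  have hinj : Function.Injective z := by
    intro G G' h
    exact Set.Subset.antisymm (hsub G G' h) (hsub G' G h.symm)
  have h1 := Nat.card_le_card_of_injective z hinj
  rw [card_sets m, card_table] at h1
  generalize Nat.card N.Q = q at *
  have h2 : 2 ^ (q * q) * q ≤ 2 ^ (q * q + q) := by
    rw [pow_add]
    exact Nat.mul_le_mul_left _ (Nat.lt_two_pow_self).le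
  exact (Nat.pow_le_pow_iff_right (by norm_num)).1 (h1.trans h2)

end lower

end Pool.Agent.U593.SV
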